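import Mathlib
import Pool.Agent.X128.DTNo
import Pool.Agent.X128.DTArith

/-!
# A block-diagonal averaging matrix whose permanent is not a common transversal probability

For `T = diag(T_1, T_2, T_5)` (blocks of sizes `1, 2, 5`) the permanent is `12 / 625`, and no finite
group `G` with subgroups `H`, `K` of the same order has common transversal probability `12 / 625`.
-/

set_option autoImplicit false

universe u

namespace Pool.Agent.Results.MP_e51b07_al.NotTransversal

open Finset Pool.Agent.X128

/-- `S` is a left transversal of `H`: it meets every left coset `g H` in exactly one element. -/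
def IsLeftTransversal {G : Type u} [Group G] (H : Subgroup G) (S : Finset G) : Prop :=
  ∀ g : G, ∃! s, s ∈ S ∧ g⁻¹ * s ∈ H

/-- `S` is a right transversal of `K`: it meets every right coset `K g` in exactly one element. -/
def IsRightTransversal {G : Type u} [Group G] (K : Subgroup G) (S : Finset G) : Prop :=
  ∀ g : G, ∃! s, s ∈ S ∧ s * g⁻¹ ∈ K

/-- The common transversal probability of `H` and `K`: the number of left transversals of `H` that
are right transversals of `K`, divided by `|H| ^ n` with `n = (G : H)`. -/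
noncomputable def P {G : Type u} [Group G] (H K : Subgroup G) : ℚ :=
  (Nat.card {S : Finset G // IsLeftTransversal H S ∧ IsRightTransversal K S} : ℚ) /
    (Nat.card H : ℚ) ^ H.index

/-- The block diagonal matrix `diag(T_1, …, T_s)` whose block `T_i` is the `t_i × t_i` matrix with
every entry `1 / t_i`. -/
def T {s : ℕ} (t : Fin s → ℕ) : Matrix (Σ i : Fin s, Fin (t i)) (Σ i : Fin s, Fin (t i)) ℚ :=
  Matrix.blockDiagonal' fun i => Matrix.of fun _ _ : Fin (t i) => (1 / (t i : ℚ))

lemma T_apply {s : ℕ} (t : Fin s → ℕ) (x y : Σ i : Fin s, Fin (t i)) :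
    T t x y = if x.1 = y.1 then 1 / (t y.1 : ℚ) else 0 := by
  obtain ⟨i, a⟩ := x
  obtain ⟨j, b⟩ := y
  unfold T
  simp only [Matrix.blockDiagonal'_apply]
  by_cases h : i = j
  · subst h
    simp
  · simp [h]

/-- The formula for the permanent. -/
lemma permanent_T {s : ℕ} (t : Fin s → ℕ) : (T t).permanent = ∏ i, DTArith.f (t i) := by
  classical
  unfold Matrix.permanent
  have h1 : ∀ σ : Equiv.Perm (Σ i : Fin s, Fin (t i)),
      ∏ x, T t (σ x) x = if (Sigma.fst ∘ σ = Sigma.fst) then ∏ i, (1 / (t i : ℚ)) ^ t i else 0 := by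
    intro σ
    split_ifs with h
    · have h2 : ∀ x, T t (σ x) x = 1 / (t x.1 : ℚ) := by
        intro x
        rw [T_apply]
        exact if_pos (congrFun h x)
      rw [Finset.prod_congr rfl (fun x _ => h2 x), Fintype.prod_sigma]
      refine Finset.prod_congr rfl fun i _ => ?_
      simp
    · have : ∃ x, (σ x).1 ≠ x.1 := by
        by_contra hcon
        push Not at hcon
        exact h (funext hcon)
      obtain ⟨x, hx⟩ := this
      exact Finset.prod_eq_zero (Finset.mem_univ x) (by rw [T_apply, if_neg hx])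
  rw [Finset.sum_congr rfl (fun σ _ => h1 σ), ← Finset.sum_filter, Finset.sum_const,
    ← Fintype.card_subtype, DomMulAct.stabilizer_card, nsmul_eq_mul]
  push_cast
  rw [← Finset.prod_mul_distrib]
  refine Finset.prod_congr rfl fun i _ => ?_
  have h3 : Fintype.card {a : Σ i : Fin s, Fin (t i) // a.1 = i} = t i := by
    have e : {a : Σ i : Fin s, Fin (t i) // a.1 = i} ≃ Fin (t i) := Equiv.sigmaSubtype i
    rw [Fintype.card_congr e, Fintype.card_fin]
  rw [h3]
  unfold DTArith.f
  rw [div_pow, one_pow, mul_one_div]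

lemma permanent_125 : (T ![1, 2, 5]).permanent = 12 / 625 := by
  rw [permanent_T, Fin.prod_univ_three]
  show DTArith.f 1 * DTArith.f 2 * DTArith.f 5 = 12 / 625
  unfold DTArith.f
  norm_num [Nat.factorial]

/-- The product formula for the common transversal probability. -/
lemma P_eq {G : Type u} [Group G] [Finite G] (H K : Subgroup G) (hc : Nat.card H = Nat.card K)
    [Fintype (DoubleCoset.Quotient (K : Set G) (H : Set G))] :
    P H K = ∏ σ : DoubleCoset.Quotient (K : Set G) (H : Set G), DTArith.f (DTGroup.ts H K σ) := by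
  classical
  haveI := Fintype.ofFinite G
  unfold P
  have h1 : Nat.card {S : Finset G // IsLeftTransversal H S ∧ IsRightTransversal K S} =
      ∏ σ : DoubleCoset.Quotient (K : Set G) (H : Set G),
        ((DTGroup.ts H K σ).factorial * DTGroup.ms H K σ ^ (DTGroup.ts H K σ)) :=
    DTGroup.card_DT H K hc
  have h2 : H.index = ∑ σ : DoubleCoset.Quotient (K : Set G) (H : Set G), DTGroup.ts H K σ := by
    have e : (G ⧸ H) ≃ Σ σ : DoubleCoset.Quotient (K : Set G) (H : Set G),
        {x // DTGroup.pm H K x = σ} := (Equiv.sigmaFiberEquiv _).symm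
    show Nat.card (G ⧸ H) = _
    rw [Nat.card_congr e, Nat.card_sigma]
    rfl
  rw [h1, h2, ← Finset.prod_pow_eq_pow_sum]
  push_cast
  rw [← Finset.prod_div_distrib]
  refine Finset.prod_congr rfl fun σ _ => ?_
  have h3 := DTGroup.ts_mul_ms H K hc σ
  have hpos : 0 < Nat.card H := Nat.card_pos
  have hm : DTGroup.ms H K σ ≠ 0 := by
    intro h
    rw [h, mul_zero] at h3
    omega
  unfold DTArith.f
  rw [← h3]
  push_cast
  rw [mul_pow]
  have hm' : ((DTGroup.ms H K σ : ℕ) : ℚ) ^ DTGroup.ts H K σ ≠ 0 := by positivity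
  rw [mul_div_mul_right _ _ hm']

lemma ts_pos {G : Type u} [Group G] [Finite G] (H K : Subgroup G)
    (hc : Nat.card H = Nat.card K) (σ : DoubleCoset.Quotient (K : Set G) (H : Set G)) :
    1 ≤ DTGroup.ts H K σ := by
  haveI := Fintype.ofFinite G
  have h3 := DTGroup.ts_mul_ms H K hc σ
  have hpos : 0 < Nat.card H := Nat.card_pos
  by_contra h
  have : DTGroup.ts H K σ = 0 := by omega
  rw [this, zero_mul] at h3
  omega

/-- **Negative answers to Q1 and Q2.**  For the block sizes `1, 2, 5` the permanent of `T` is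
`12 / 625`, and it differs from the common transversal probability `P H K` for all finite groups
`G` and all subgroups `H, K` of the same order. -/
theorem result :
    (T ![1, 2, 5]).permanent = 12 / 625 ∧
    ∀ (G : Type u) [Group G] [Finite G] (H K : Subgroup G), Nat.card H = Nat.card K →
      P H K ≠ (T ![1, 2, 5]).permanent := by
  refine ⟨permanent_125, ?_⟩
  intro G _ _ H K hc hP
  classical
  haveI := Fintype.ofFinite G
  haveI : Finite (DoubleCoset.Quotient (K : Set G) (H : Set G)) :=
    Finite.of_surjective (DTGroup.dm H K) Quotient.mk''_surjective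
  haveI := Fintype.ofFinite (DoubleCoset.Quotient (K : Set G) (H : Set G))
  rw [permanent_125, P_eq H K hc] at hP
  obtain ⟨⟨σ2, h2⟩, ⟨σ5, h5⟩, hsum⟩ := DTArith.arith (DTGroup.ts H K) (ts_pos H K hc) hP
  have hidx : H.index = ∑ σ : DoubleCoset.Quotient (K : Set G) (H : Set G), DTGroup.ts H K σ := by
    have e : (G ⧸ H) ≃ Σ σ : DoubleCoset.Quotient (K : Set G) (H : Set G),
        {x // DTGroup.pm H K x = σ} := (Equiv.sigmaFiberEquiv _).symm
    show Nat.card (G ⧸ H) = _
    rw [Nat.card_congr e, Nat.card_sigma]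
    rfl
  rw [hsum] at hidx
  have hms : ∀ σ : DoubleCoset.Quotient (K : Set G) (H : Set G),
      DTGroup.ms H K σ * DTGroup.ts H K σ = Nat.card H := by
    intro σ
    rw [mul_comm]
    exact DTGroup.ts_mul_ms H K hc σ
  have e2 := hms σ2
  have e5 := hms σ5
  rw [h2] at e2
  rw [h5] at e5
  refine DTNo.no_group H K hc _ hidx ?_ σ2.out e2 σ5.out e5
  -- the elements `g` with `g⁻¹ K g = H` form the double cosets with `t = 1`
  have hiff : ∀ g : G, DTGroup.Kc K g = H ↔ DTGroup.ts H K (DTGroup.dm H K g) = 1 := by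
    intro g
    have e := DTGroup.ts_mul_ms H K hc (DTGroup.dm H K g)
    rw [DTGroup.ms_dm] at e
    have hpos : 0 < Nat.card H := Nat.card_pos
    constructor
    · intro h
      rw [h, inf_idem] at e
      exact Nat.eq_of_mul_eq_mul_right hpos (by rw [e, one_mul])
    · intro h
      rw [h, one_mul] at e
      have h1 : H ⊓ DTGroup.Kc K g = H :=
        Subgroup.eq_of_le_of_card_ge inf_le_left (by rw [e])
      have h2 : H ≤ DTGroup.Kc K g := inf_eq_left.1 h1
      exact (Subgroup.eq_of_le_of_card_ge h2 (by rw [DTGroup.card_Kc, hc])).symm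
  have e : {g : G // DTGroup.Kc K g = H} ≃
      Σ σ : {σ : DoubleCoset.Quotient (K : Set G) (H : Set G) // DTGroup.ts H K σ = 1},
        {g // DTGroup.dm H K g = σ.1} :=
    { toFun := fun g => ⟨⟨DTGroup.dm H K g.1, (hiff g.1).1 g.2⟩, ⟨g.1, rfl⟩⟩
      invFun := fun x => ⟨x.2.1, (hiff _).2 (by rw [x.2.2]; exact x.1.2)⟩
      left_inv := fun g => rfl
      right_inv := fun x => by
        obtain ⟨⟨σ, hσ⟩, ⟨g, hg⟩⟩ := x
        simp only at hg
        subst hg
        rfl }
  rw [Nat.card_congr e, Nat.card_sigma]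
  have : ∀ σ : {σ : DoubleCoset.Quotient (K : Set G) (H : Set G) // DTGroup.ts H K σ = 1},
      Nat.card {g // DTGroup.dm H K g = σ.1} = Nat.card H := by
    intro σ
    rw [DTGroup.card_dm_left, σ.2, one_mul]
  simp only [this]
  rw [Finset.sum_const, smul_eq_mul, Finset.card_univ, Fintype.card_subtype]

end Pool.Agent.Results.MP_e51b07_al.NotTransversal
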